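import Mathlib
import Pool.Agent.Lib.MP_293f2a_ag.Defs
import Pool.Agent.Lib.MP_293f2a_ag.Part19

set_option autoImplicit false

universe uK uX v w

open Pool.Agent.CS MvPolynomial

namespace Pool.Agent.Results.MP_293f2a_ag.CartwrightSturmfels

/-- Let `I` be a `ℤ^n`-graded Cartwright–Sturmfels ideal of `K[X]` (the variable `x` has degree
`e_{b x}`), and let `b' : X → Fin r` define a finer standard grading.  Then the homogenization of
`I` and the ideal generated by the `ℤ^r`-homogeneous elements of `I` are Cartwright–Sturmfels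
ideals for the finer grading. -/
theorem result (K : Type uK) [Field K] [Infinite K] (X : Type uX) [Fintype X] [DecidableEq X]
    (n r : ℕ) (hn : 1 ≤ n) (b : X → Fin n) (b' : X → Fin r)
    (hbb : ∀ x y : X, b' x = b' y → b x = b y)
    (I : Ideal (MvPolynomial X K)) (hI : IsMultigraded b I)
    (σ : MonomialOrder.{uX, v} X) (hCS : IsCS b σ I) :
    (∀ τ : MonomialOrder.{uX, w} (X ⊕ Fin r), IsCS (Sum.elim b' id) τ (homIdeal b' I)) ∧
      (∀ τ : MonomialOrder.{uX, w} X, IsCS b' τ (homogPart b' I)) := by
  have : Nonempty (Fin n) := ⟨⟨0, hn⟩⟩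
  exact main b b' hbb I hI σ hCS

end Pool.Agent.Results.MP_293f2a_ag.CartwrightSturmfels
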